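import Pool.Agent.Helper45.U4.St1

/-! MODULE SUM of project U4: sums of a function on the points over the neighbours of a subspace. -/

set_option autoImplicit false

open Module Classical
open scoped LinearAlgebra.Projectivization

namespace Pool.Agent.Helper97.U4

open Pool.Agent.Helper45.U4 Pool.Agent.Helper53.PB

section

variable {F V : Type} [Field F] [AddCommGroup V] [Module F V] [Finite F] [Finite V]
  [FiniteDimensional F V] {P : Polar F V} {U : Submodule F V}

/-- number of the neighbours that contain a subspace of `U` -/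
theorem card_le_nb (N : Nb P U Bool) (hF : Nat.card F = 4) {M : Submodule F V} (hM : M ≤ U) :
    (Finset.univ.filter (fun p => M ≤ N.nb p)).card = 2 * geo 4 (finrank F U - finrank F M) := by
  have h1 : Finset.univ.filter (fun p => M ≤ N.nb p) =
      (Finset.univ : Finset Bool) ×ˢ
        pts (F := F) ((M.comap U.subtype).dualAnnihilator : Submodule F (Dual F U)) := by
    ext p
    rw [Finset.mem_filter, Finset.mem_product, mem_pts, Submodule.mem_dualAnnihilator]
    constructor
    · rintro ⟨_, h⟩
      refine ⟨Finset.mem_univ _, ?_⟩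
      intro x hx
      rw [← N.inU p x]
      exact h hx
    · rintro ⟨_, h⟩
      refine ⟨Finset.mem_univ _, ?_⟩
      intro x hx
      have h2 := h ⟨x, hM hx⟩ hx
      exact (N.inU p ⟨x, hM hx⟩).2 h2
  have h2 := Subspace.finrank_add_finrank_dualAnnihilator_eq (M.comap U.subtype)
  have h3 : finrank F (M.comap U.subtype) = finrank F M :=
    (Submodule.comapSubtypeEquivOfLe hM).finrank_eq
  rw [h1, Finset.card_product, Finset.card_univ, Fintype.card_bool, card_pts, hF]
  congr 2
  omega

theorem finrank_sup_pt {L : Submodule F V} {y : ℙ F V} (h : y.rep ∉ L) :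
    finrank F (L ⊔ Submodule.span F {y.rep} : Submodule F V) = finrank F L + 1 := by
  have h1 : L ⊓ Submodule.span F {y.rep} = ⊥ := by
    rw [eq_bot_iff]
    intro x hx
    rw [Submodule.mem_bot]
    by_contra h0
    obtain ⟨c, hc⟩ := Submodule.mem_span_singleton.1 hx.2
    have hc0 : c ≠ 0 := by
      rintro rfl
      rw [zero_smul] at hc
      exact h0 hc.symm
    apply h
    have h2 : y.rep = c⁻¹ • x := by
      rw [← hc, smul_smul, inv_mul_cancel₀ hc0, one_smul]
    rw [h2]
    exact Submodule.smul_mem _ _ hx.1
  have h2 := Submodule.finrank_sup_add_finrank_inf_eq L (Submodule.span F {y.rep})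
  rw [h1, finrank_bot, finrank_span_singleton y.rep_nonzero] at h2
  omega

theorem tf_eq (f : ℙ F V → ℤ) (W : Submodule F V) :
    tf f W = ∑ y, if y.rep ∈ W then f y else 0 := by
  rw [tf, pts, Finset.sum_filter]

/-- the general sum -/
theorem sumL (N : Nb P U Bool) (hF : Nat.card F = 4) (hTS : P.TS U) {f : ℙ F V → ℤ}
    (hf : Sup P f) {L : Submodule F V} (hL : L ≤ U) {n : ℕ}
    (hn : finrank F U = n + 1 + finrank F L) :
    ∑ p ∈ Finset.univ.filter (fun p => L ≤ N.nb p), tf f (N.nb p) + tf f U
      = np P f L + tf f U * (2 * geo 4 n : ℕ) + tf f L * (2 * 4 ^ n : ℕ) := by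
  have h1 : ∑ p ∈ Finset.univ.filter (fun p => L ≤ N.nb p), tf f (N.nb p) =
      ∑ y, ((Finset.univ.filter (fun p => L ≤ N.nb p ∧ y.rep ∈ N.nb p)).card : ℤ) * f y := by
    simp_rw [tf_eq]
    rw [Finset.sum_comm]
    refine Finset.sum_congr rfl fun y _ => ?_
    rw [← Finset.sum_filter, Finset.filter_filter, Finset.sum_const, nsmul_eq_mul]
  have h2 : np P f L = ∑ y : ℙ F V, if L ≤ LinearMap.ker (P.f y.rep) then f y else 0 := by
    rw [np, Finset.sum_filter]
  rw [h1, h2, tf_eq, tf_eq, Finset.sum_mul, Finset.sum_mul, ← Finset.sum_add_distrib,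
    ← Finset.sum_add_distrib, ← Finset.sum_add_distrib]
  refine Finset.sum_congr rfl fun y _ => ?_
  by_cases hy : P.sing y.rep
  · by_cases hyU : y.rep ∈ U
    · have hk : L ≤ LinearMap.ker (P.f y.rep) := by
        intro x hx
        exact hTS.2 _ hyU _ (hL hx)
      have h3 : Finset.univ.filter (fun p => L ≤ N.nb p ∧ y.rep ∈ N.nb p) =
          Finset.univ.filter (fun p => L ⊔ Submodule.span F {y.rep} ≤ N.nb p) := by
        ext p
        simp only [Finset.mem_filter, Finset.mem_univ, true_and, sup_le_iff,
          Submodule.span_singleton_le_iff_mem]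
      have hle : L ⊔ Submodule.span F {y.rep} ≤ U := by
        rw [sup_le_iff, Submodule.span_singleton_le_iff_mem]
        exact ⟨hL, hyU⟩
      rw [h3, card_le_nb N hF hle, if_pos hyU, if_pos hk]
      by_cases hyL : y.rep ∈ L
      · have h4 : L ⊔ Submodule.span F {y.rep} = L := by
          rw [sup_eq_left, Submodule.span_singleton_le_iff_mem]
          exact hyL
        have h5 : finrank F U - finrank F L = n + 1 := by omega
        rw [h4, h5, if_pos hyL, geo_succ']
        push_cast
        ring
      · have h5 : finrank F U - finrank F (L ⊔ Submodule.span F {y.rep} : Submodule F V) = n := by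
          rw [finrank_sup_pt hyL]
          omega
        rw [h5, if_neg hyL]
        push_cast
        ring
    · have hyL : y.rep ∉ L := fun h => hyU (hL h)
      obtain ⟨p, hp, huniq⟩ := N.out y.rep hy hyU
      rw [if_neg hyU, if_neg hyL]
      by_cases hk : L ≤ LinearMap.ker (P.f y.rep)
      · have h3 : Finset.univ.filter (fun p => L ≤ N.nb p ∧ y.rep ∈ N.nb p) = {p} := by
          ext p'
          rw [Finset.mem_filter, Finset.mem_singleton]
          constructor
          · rintro ⟨_, _, h⟩
            exact huniq p' h
          · rintro rfl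
            refine ⟨Finset.mem_univ _, ?_, hp⟩
            intro x hx
            refine (N.inU p' ⟨x, hL hx⟩).2 ?_
            rw [← N.perp p' y.rep hp hyU ⟨x, hL hx⟩]
            exact hk hx
        rw [h3, Finset.card_singleton, if_pos hk]
        push_cast
        ring
      · have h3 : Finset.univ.filter (fun p => L ≤ N.nb p ∧ y.rep ∈ N.nb p) = ∅ := by
          ext p'
          simp only [Finset.mem_filter, Finset.mem_univ, true_and, Finset.notMem_empty, iff_false,
            not_and]
          intro h4 h5
          apply hk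
          intro x hx
          have h6 := (N.inU p' ⟨x, hL hx⟩).1 (h4 hx)
          rw [← N.perp p' y.rep h5 hyU ⟨x, hL hx⟩] at h6
          exact h6
        rw [h3, Finset.card_empty, if_neg hk]
        push_cast
        ring
  · rw [hf y hy]
    simp

end

theorem hSUM : StSUM := by
  intro F V _ _ _ _ _ _ P U N f hF hTS hf
  refine ⟨fun n hn => ?_, fun n hn X hX => ?_, fun n hn L hL hL2 => ?_⟩
  · have h1 := sumL N hF hTS hf (L := ⊥) bot_le (n := n) (by rw [finrank_bot]; omega)
    have h2 := card_le_nb N hF (M := ⊥) bot_le
    have h3 : Finset.univ.filter (fun p => (⊥ : Submodule F V) ≤ N.nb p) = Finset.univ := by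
      ext p
      simp
    have h4 : np P f ⊥ = ∑ y, f y := by
      rw [np]
      refine Finset.sum_congr ?_ fun _ _ => rfl
      ext y
      simp
    have h5 : tf f ⊥ = 0 := by
      rw [tf_eq]
      refine Finset.sum_eq_zero fun y _ => ?_
      rw [if_neg]
      intro h
      exact y.rep_nonzero ((Submodule.mem_bot F).1 h)
    rw [h3, h4, h5, zero_mul, add_zero] at h1
    rw [h3, finrank_bot, Nat.sub_zero, hn, Finset.card_univ] at h2
    exact ⟨h1, h2⟩
  · have hle : Submodule.span F {X.rep} ≤ U := by
      rw [Submodule.span_singleton_le_iff_mem]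
      exact hX
    have hfr : finrank F (Submodule.span F {X.rep}) = 1 := finrank_span_singleton X.rep_nonzero
    have h1 := sumL N hF hTS hf hle (n := n) (by rw [hfr, hn])
    have h2 := card_le_nb N hF hle
    have h3 : Finset.univ.filter (fun p => Submodule.span F {X.rep} ≤ N.nb p) =
        Finset.univ.filter (fun p => X.rep ∈ N.nb p) := by
      ext p
      simp only [Finset.mem_filter, Finset.mem_univ, true_and,
        Submodule.span_singleton_le_iff_mem]
    have h4 : np P f (Submodule.span F {X.rep}) = nf P f X := by
      rw [np, nf]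
      refine Finset.sum_congr ?_ fun _ _ => rfl
      ext y
      simp only [Finset.mem_filter, Finset.mem_univ, true_and,
        Submodule.span_singleton_le_iff_mem, LinearMap.mem_ker]
    have h5 : tf f (Submodule.span F {X.rep}) = f X := by
      rw [tf, pts_span, Finset.sum_singleton]
    have h6 : finrank F U - 1 = n + 1 := by omega
    rw [h3, h4, h5] at h1
    rw [h3, hfr, h6] at h2
    exact ⟨h1, h2⟩
  · have h1 := sumL N hF hTS hf hL (n := n) (by rw [hL2, hn])
    have h2 := card_le_nb N hF hL
    have h6 : finrank F U - finrank F L = n + 1 := by omega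
    rw [h6] at h2
    exact ⟨h1, h2⟩

end Pool.Agent.Helper97.U4
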